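import Pool.Agent.Q171.Pot.Count

set_option autoImplicit false

open MeasureTheory Metric Set Filter Topology
open scoped ENNReal

/-!
# Optimal potentials for Schrödinger eigenvalues have a bounded set of finiteness

`lamK k V` (from `Pool.Agent.H456R3.S.F6`) is the `k`-th min-max eigenvalue of `-Δ + V` on `ℝ^d`:
the infimum over `k`-tuples in `H¹(ℝ^d)` with finite potential energy, linearly independent in `L²`,
of the maximum over their span of `(∫|∇u|² + ∫ V u²) / ∫ u²`.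
-/

namespace Pool.Agent.Results.MP_5ab436_an.BoundedFiniteness

open Pool.Agent.H456R3.S Pool.Agent.Q171.Pot

/-- the class `𝒜_p` of potentials -/
def Adm {d : ℕ} (p : ℝ) (V : (Fin d → ℝ) → ℝ≥0∞) : Prop :=
  AEMeasurable V volume ∧ ∫⁻ x, V x ^ (-p) ≤ 1

/-- the set of finiteness of `V` is contained, up to a null set, in a union of at most `M` unit
cubes -/
def Covered {d : ℕ} (M : ℕ) (V : (Fin d → ℝ) → ℝ≥0∞) : Prop :=
  ∃ S : Finset (Fin d → ℤ), S.card ≤ M ∧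
    ∀ᵐ x : Fin d → ℝ, V x ≠ ∞ → ∃ q ∈ S, ∀ i, |x i - q i| ≤ 1 / 2

theorem Covered.bounded {d : ℕ} {M : ℕ} {V : (Fin d → ℝ) → ℝ≥0∞} (h : Covered M V) :
    ∃ R : ℝ, ∀ᵐ x : Fin d → ℝ, V x ≠ ∞ → ‖x‖ ≤ R := by
  obtain ⟨S, -, hS⟩ := h
  refine ⟨∑ q ∈ S, ‖fun i => (q i : ℝ)‖ + 1, ?_⟩
  filter_upwards [hS] with x hx hxV
  obtain ⟨q, hq, hqx⟩ := hx hxV
  have h1 : ‖x - fun i => (q i : ℝ)‖ ≤ 1 / 2 := by
    rw [pi_norm_le_iff_of_nonneg (by norm_num)]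
    intro i
    exact hqx i
  have h2 : ‖fun i => (q i : ℝ)‖ ≤ ∑ q ∈ S, ‖fun i => (q i : ℝ)‖ :=
    Finset.single_le_sum (f := fun q : Fin d → ℤ => ‖fun i => (q i : ℝ)‖)
      (fun _ _ => norm_nonneg _) hq
  have h3 : ‖x‖ ≤ ‖x - fun i => (q i : ℝ)‖ + ‖fun i => (q i : ℝ)‖ := by
    have := norm_add_le (x - fun i => (q i : ℝ)) (fun i => (q i : ℝ))
    rwa [sub_add_cancel] at this
  linarith

/-- Let `d ≥ 1`, `0 < p ≤ 1`, `k ≥ 1`.
(1) Every optimal potential for `λ_k` has a bounded set of finiteness; it is even contained in a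
union of `M` unit cubes, with `M` depending only on `d, p, k`.
(2) The same holds, with `M` depending only on `d, p, k, Λ`, if `λ_k(V) ≤ Λ` and `V` is optimal only
among the potentials of `𝒜_p` whose set of finiteness is contained in that of `V`. -/
theorem result (d k : ℕ) (hd : 1 ≤ d) (hk : 1 ≤ k) (p : ℝ) (hp0 : 0 < p) (hp1 : p ≤ 1) :
    (∃ M : ℕ, ∀ V : (Fin d → ℝ) → ℝ≥0∞, Adm p V → (∀ W : (Fin d → ℝ) → ℝ≥0∞, Adm p W → lamK k V ≤ lamK k W) →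
      Covered M V ∧ ∃ R : ℝ, ∀ᵐ x : Fin d → ℝ, V x ≠ ∞ → ‖x‖ ≤ R) ∧
    ∀ Λ : ℝ, ∃ M : ℕ, ∀ V : (Fin d → ℝ) → ℝ≥0∞, Adm p V → lamK k V ≤ ENNReal.ofReal Λ →
      (∀ W : (Fin d → ℝ) → ℝ≥0∞, Adm p W → (∀ᵐ x, V x = ∞ → W x = ∞) → lamK k V ≤ lamK k W) →
      Covered M V ∧ ∃ R : ℝ, ∀ᵐ x : Fin d → ℝ, V x ≠ ∞ → ‖x‖ ≤ R := by
  have h2 : ∀ Λ : ℝ, ∃ M : ℕ, ∀ V : (Fin d → ℝ) → ℝ≥0∞, Adm p V →
      lamK k V ≤ ENNReal.ofReal Λ →
      (∀ W : (Fin d → ℝ) → ℝ≥0∞, Adm p W → (∀ᵐ x, V x = ∞ → W x = ∞) → lamK k V ≤ lamK k W) →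
      Covered M V ∧ ∃ R : ℝ, ∀ᵐ x : Fin d → ℝ, V x ≠ ∞ → ‖x‖ ≤ R := by
    intro Λ
    obtain ⟨M, hM⟩ := cover_meas (k := k) d hk hp0 hp1 (le_max_right Λ 0)
    refine ⟨M, fun V hV hl hopt => ?_⟩
    have hae : V =ᵐ[volume] hV.1.mk V := hV.1.ae_eq_mk
    set V' := hV.1.mk V with hV'
    have hV1 : ∫⁻ x, V' x ^ (-p) ≤ 1 := by
      rw [← lintegral_congr_ae (show (fun x => V x ^ (-p)) =ᵐ[volume] fun x => V' x ^ (-p) by
        filter_upwards [hae] with x hx; rw [hx])]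
      exact hV.2
    have hlam : lamK k V = lamK k V' := lamK_congr hae
    have hcov : Covered M V := by
      obtain ⟨S, hS1, hS2⟩ := hM V' hV.1.measurable_mk hV1
        (by rw [← hlam]; exact hl.trans (ENNReal.ofReal_le_ofReal (le_max_left _ _)))
        (fun W hW hW1 hW2 => by
          rw [← hlam]
          apply hopt W ⟨hW.aemeasurable, hW1⟩
          filter_upwards [hae] with x hx hxV
          exact hW2 x (by rw [← hx]; exact hxV))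
      refine ⟨S, hS1, ?_⟩
      filter_upwards [hS2, hae] with x hx1 hx2 hxV
      exact hx1 (by rw [← hx2]; exact hxV)
    exact ⟨hcov, hcov.bounded⟩
  refine ⟨?_, h2⟩
  obtain ⟨W0, hW0, hW01, hW0f⟩ := exists_finite hd k hp0
  obtain ⟨M, hM⟩ := h2 (lamK k W0).toReal
  refine ⟨M, fun V hV hopt => hM V hV ?_ (fun W hW _ => hopt W hW)⟩
  rw [ENNReal.ofReal_toReal hW0f]
  exact hopt W0 ⟨hW0.aemeasurable, hW01⟩

end Pool.Agent.Results.MP_5ab436_an.BoundedFiniteness
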